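import Pool.Agent.Results.MP_193372_co.VetoMax

/-!
# MP_230f06_co: a unit veto interval graph which is not a midpoint proper veto interval graph

Every midpoint proper veto interval graph has a proper colouring with three colours
(`mpvi_colorable`, from this team's solution of MP_193372_co), while there is a unit veto interval
graph on 16 vertices whose chromatic number is four.
-/

set_option autoImplicit false

namespace Pool.Agent.Results.MP_230f06_co.UnitNotMidpointProper

open Pool.Agent.Results.MP_193372_co.VetoMax

/-- There is a unit veto interval graph (on 16 vertices) which is not a midpoint proper veto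
interval graph; in fact no finite unit veto interval graph of chromatic number four is one. -/
theorem result :
    (∃ G : SimpleGraph (Fin 16), UVI G ∧ ¬ MPVI G) ∧
    ∀ (V : Type) (_ : Finite V) (G : SimpleGraph V), G.chromaticNumber = 4 → ¬ MPVI G := by
  refine ⟨⟨G1, G1_uvi, fun h => G1_not (mpvi_colorable G1 h)⟩, ?_⟩
  intro V _ G h4 h
  have h1 := (mpvi_colorable G h).chromaticNumber_le
  rw [h4] at h1
  exact absurd h1 (by decide)

end Pool.Agent.Results.MP_230f06_co.UnitNotMidpointProper
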